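import Pool.Agent.SigOrd.Main

/-!
There is no long well-ordering of sets of subsets of `κ` which is definable by a `Σ₁`-formula with
parameter `κ` (and a further parameter from `H(κ)`) when `κ` is a limit of `ω` many measurable
cardinals.

The formulas with bounded quantifiers only (`D0`), their satisfaction in the universe of sets
(`D0.Sat`) and `IsMeasurable` are defined in the imported files.
-/

universe u

namespace Pool.Agent.Work.MP_13a02f_lc.NoLongWellOrder

open Pool.Agent.SigOrd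

/-- The cardinal `κ` is a limit of `ω`-many measurable cardinals: `κ = sup c n` for a strictly
increasing sequence `c` of measurable cardinals. -/
def IsLimitOfMeasurables (κ : Cardinal.{u}) : Prop :=
  ∃ c : ℕ → Cardinal.{u}, StrictMono c ∧ (∀ n, IsMeasurable (c n)) ∧ κ = ⨆ n, c n

/-- The relation `R` is a well-ordering of the set `D`: it relates only elements of `D`, and its
irreflexive part is a (strict) well-ordering of `D`. This covers strict and reflexive
well-orderings. -/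
def IsWellOrderingOf (R : ZFSet.{u} → ZFSet.{u} → Prop) (D : ZFSet.{u}) : Prop :=
  (∀ x y, R x y → x ∈ D ∧ y ∈ D) ∧
    IsWellOrder {x : ZFSet.{u} // x ∈ D} (fun x y => R x.1 y.1 ∧ x ≠ y)

/-- The set `p` is hereditarily of cardinality less than `κ`. -/
def MemH (κ : Cardinal.{u}) (p : ZFSet.{u}) : Prop :=
  ∃ t : ZFSet.{u}, t.IsTransitive ∧ p ∈ t ∧ t.card < κ

/-- The relation `R` on the universe of sets is definable by a `Σ₁`-formula `∃ w, φ` (where `φ` has
only bounded quantifiers) with the parameters `k` and `p`. -/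
def SigmaOneDefinable (R : ZFSet.{u} → ZFSet.{u} → Prop) (k p : ZFSet.{u}) : Prop :=
  ∃ φ : D0 5, ∀ x y, R x y ↔ ∃ w, φ.Sat ![w, x, y, k, p]

theorem wellOrders {R : ZFSet.{u} → ZFSet.{u} → Prop} {D : ZFSet.{u}}
    (h : IsWellOrderingOf R D) : WellOrders R D := by
  obtain ⟨hf, hw⟩ := h
  refine ⟨hf, ?_, ?_, ?_, ?_⟩
  · intro x hx y hy hne
    rcases trichotomous_of (fun x y : {x : ZFSet.{u} // x ∈ D} => R x.1 y.1 ∧ x ≠ y)
      ⟨x, hx⟩ ⟨y, hy⟩ with h1 | h1 | h1
    · exact Or.inl h1.1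
    · exact absurd (congrArg Subtype.val h1) hne
    · exact Or.inr h1.1
  · intro x y h1 h2
    by_contra hne
    have hx := (hf _ _ h1).1
    have hy := (hf _ _ h1).2
    have h3 : R x y ∧ (⟨x, hx⟩ : {x : ZFSet.{u} // x ∈ D}) ≠ ⟨y, hy⟩ :=
      ⟨h1, fun h => hne (congrArg Subtype.val h)⟩
    have h4 : R y x ∧ (⟨y, hy⟩ : {x : ZFSet.{u} // x ∈ D}) ≠ ⟨x, hx⟩ :=
      ⟨h2, fun h => hne (congrArg Subtype.val h).symm⟩
    exact (asymm_of (fun x y : {x : ZFSet.{u} // x ∈ D} => R x.1 y.1 ∧ x ≠ y)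
      (a := ⟨x, hx⟩) (b := ⟨y, hy⟩) h3) h4
  · intro x y z h1 h2 hne
    by_cases hxy : x = y
    · rw [hxy]; exact h2
    by_cases hyz : y = z
    · rw [← hyz]; exact h1
    have hx := (hf _ _ h1).1
    have hy := (hf _ _ h1).2
    have hz := (hf _ _ h2).2
    exact (trans_of (fun x y : {x : ZFSet.{u} // x ∈ D} => R x.1 y.1 ∧ x ≠ y)
      (a := ⟨x, hx⟩) (b := ⟨y, hy⟩) (c := ⟨z, hz⟩)
      ⟨h1, fun h => hxy (congrArg Subtype.val h)⟩
      ⟨h2, fun h => hyz (congrArg Subtype.val h)⟩).1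
  · intro S hS hne
    obtain ⟨s, hs⟩ := hne
    obtain ⟨m, hm, hmin⟩ := hw.wf.has_min {x : {x : ZFSet.{u} // x ∈ D} | x.1 ∈ S}
      ⟨⟨s, hS s hs⟩, hs⟩
    refine ⟨m.1, hm, fun x hx hxm => ?_⟩
    have hne' : (⟨x, hS x hx⟩ : {x : ZFSet.{u} // x ∈ D}) ≠ m :=
      fun h => hxm (congrArg Subtype.val h)
    rcases trichotomous_of (fun x y : {x : ZFSet.{u} // x ∈ D} => R x.1 y.1 ∧ x ≠ y)
      ⟨x, hS x hx⟩ m with h1 | h1 | h1
    · exact absurd h1 (hmin _ hx)
    · exact absurd h1 hne'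
    · exact h1.1

/-- If `κ` is a limit of `ω`-many measurable cardinals, then no well-ordering of any set `D` of
subsets of `κ` with `|D| > κ` is definable by a `Σ₁`-formula with parameter `κ`, even if a further
parameter `p ∈ H(κ)` is allowed. -/
theorem result : ¬ ∃ (κ : Cardinal.{u}) (D : ZFSet.{u}) (R : ZFSet.{u} → ZFSet.{u} → Prop)
    (p : ZFSet.{u}), IsLimitOfMeasurables κ ∧ D ⊆ ZFSet.powerset κ.ord.toZFSet ∧ κ < D.card ∧
      IsWellOrderingOf R D ∧ MemH κ p ∧ SigmaOneDefinable R κ.ord.toZFSet p := by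
  rintro ⟨κ, D, R, p, ⟨c, hc, hm, hs⟩, hD, hcard, hR, hp, φ, hφ⟩
  choose hunc W hW hna using hm
  exact main (κ := κ) (c := c) (W := W) ⟨hc, hunc, hs, hW, hna⟩ (wellOrders hR) hD hcard hp hφ

end Pool.Agent.Work.MP_13a02f_lc.NoLongWellOrder
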